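import Pool.Agent.Lib.MP_41eeae_an.Main

/-!
Square-root lower growth for minimal graphs over domains bounded by a Jordan arc.
-/

set_option autoImplicit false

open Filter Set Topology Real
open Pool.Agent.Lib.MP_41eeae_an

namespace Pool.Agent.Results.MP_41eeae_an.SqrtGrowth

/-- Let `D` be an unbounded plane domain bounded by a Jordan arc `Γ = γ(ℝ)` (proper, injective).
Every positive solution of the minimal surface equation on `D` with zero boundary values satisfies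
`M(r) = max {u(z) : z ∈ D, |z| = r} ≥ C √r` for all large `r`. -/
theorem result
    (γ : ℝ → ℂ) (hγ : Continuous γ) (hγinj : Function.Injective γ)
    (hγbot : Tendsto (fun t => ‖γ t‖) atBot atTop)
    (hγtop : Tendsto (fun t => ‖γ t‖) atTop atTop)
    (D : Set ℂ) (hDopen : IsOpen D) (hDconn : IsConnected D)
    (hDbdry : frontier D = Set.range γ)
    (u : ℂ → ℝ) (hu : ContDiffOn ℝ 2 u D) (hucont : ContinuousOn u (closure D))
    (hmse : ∀ z ∈ D, MinimalSurfaceEq u z) (hpos : ∀ z ∈ D, 0 < u z)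
    (hzero : ∀ z ∈ frontier D, u z = 0) :
    ∃ C : ℝ, 0 < C ∧ ∃ r₀ : ℝ, 0 < r₀ ∧ ∀ r : ℝ, r₀ < r →
      ∃ M : ℝ, IsGreatest (u '' {z | z ∈ D ∧ ‖z‖ = r}) M ∧ C * √r ≤ M := by
  have hsol : Sol D u :=
    ⟨hDopen, hu, continuous_indicator hzero hucont, hpos, hmse⟩
  have hmeet : ∀ t, ‖γ 0‖ ≤ t → ∃ z : ℂ, ‖z‖ = t ∧ z ∉ D := by
    intro t ht
    obtain ⟨b, hb0, hb⟩ : ∃ b : ℝ, 0 ≤ b ∧ t ≤ ‖γ b‖ := by
      obtain ⟨b, hb⟩ := ((hγtop.eventually_ge_atTop t).and (eventually_ge_atTop 0)).exists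
      exact ⟨b, hb.2, hb.1⟩
    have hcont : ContinuousOn (fun s => ‖γ s‖) (Icc 0 b) := hγ.norm.continuousOn
    obtain ⟨s, _, hs⟩ := intermediate_value_Icc hb0 hcont ⟨ht, hb⟩
    refine ⟨γ s, hs, fun hmem => ?_⟩
    have h1 : γ s ∈ frontier D := by rw [hDbdry]; exact mem_range_self s
    rw [hDopen.frontier_eq] at h1
    exact h1.2 hmem
  obtain ⟨C, hC, r₁, hr₁, H⟩ := hsol.sqrt_growth hDconn.nonempty hmeet
  refine ⟨C, hC, r₁, hr₁, fun r hr => ?_⟩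
  obtain ⟨z, hzD, hzr, hmax, hle⟩ := H r hr
  refine ⟨u z, ⟨⟨z, ⟨hzD, hzr⟩, rfl⟩, ?_⟩, hle⟩
  rintro _ ⟨w, ⟨hwD, hwr⟩, rfl⟩
  exact hmax w hwD hwr

end Pool.Agent.Results.MP_41eeae_an.SqrtGrowth
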